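import Pool.Agent.T6.H20.MT.Deg

/-!
# MP_a325a5_ag: Zilber-Pink for all but finitely many of the members of bounded degree of arbitrary
one-parameter families of subvarieties of the mixed Shimura variety `Y(1)^n × G_m^k`

**The mixed Shimura variety.** `Y(1)^n` is identified with `ℂ^n` by the elliptic modular function
`jj = j = E₄³ / Δ`. The special subvarieties of `Y(1)^n × G_m^k` are the products of a special
subvariety `Z` of `Y(1)^n` and a torsion coset. `Z` is given by a `SpecialVariety`: its points are the
points `x` with `x_i` a constant for the constant coordinates, and `x_i = j (g_i z_c)` for the
coordinates of class `c`, where `z_1, …, z_r` are free in the upper half plane and `g_i` is a fixed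
integral matrix of positive determinant. We allow more generally constants which are singular
moduli or integral over the ring `ℤ[Γ]` generated by a given finite set `Γ` of numbers algebraic over
`K`, and cosets of algebraic subgroups by points whose coordinates are units over `ℤ[Γ]`.

**Families.** Let `K ⊂ ℂ` be a countable field (for instance the field of algebraic numbers, or any
finitely generated field) and let `P` be an arbitrary finite system of polynomials with coefficients
in `K[t]` in `n` modular coordinates, `k` torus coordinates and `N` auxiliary coordinates. For `t ∈ ℂ`
the member `X_t` (`member t P`) is the set of the points `x` of `Y(1)^n × G_m^k` for which there is a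
`y ∈ ℂ^N` such that all polynomials of the system, with the coefficients evaluated at `t`, vanish at
`(x, y)`. So `(X_t)` can be any one-parameter family of subvarieties over `K`, or of images of
varieties under algebraic maps or correspondences.

**Tropicalization.** For `α ∈ ℚ` the set `Trop α P` consists of the points `w` of
`(ℚ ∪ {∞})^(n+k+N)` such that for every polynomial of the system the minimum of the numbers
`ord_α (coefficient) + β · w`, over the exponents `β` of its monomials, is attained at two different
exponents or is infinite.

**Types of special subvarieties.** The product `Z × C` of a special subvariety `Z` of `Y(1)^n` and a
coset `C` of an algebraic subgroup has a type `(cls, d, L)`: the partition `cls` of the coordinates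
which are not constant on `Z` into `r = dim Z` classes, the determinants `d_i > 0` of the matrices
which define `Z`, and the linear subspace `L` of `ℚ^k`, of dimension `dim C`, which is orthogonal to
the characters constant on `C`. A point `w` is compatible with the type (`Compatible`) if `w_i ≥ 0` for
the constant coordinates, for coordinates `i`, `j` in one class either `w_i ≥ 0` and `w_j ≥ 0`, or
`w_i < 0`, `w_j < 0` and `d_i d_j w_i w_j` is the square of a rational number, and the torus
coordinates of `w` are a vector in `L`.

**Theorem.** Let `m` be an integer, the dimension of the `X_t`, let `δ ≥ 0`, and let `D` be a finite set
of rational numbers such that for every type of dimension `r + dim L < n + k - m` there are at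
least `2 δ + 1` elements `α` of `D` such that `Trop α P` contains no compatible point (`Generic`).
Then for all but finitely many of the algebraic numbers `t` of degree at most `δ` over `ℚ` (in all
number fields of degree at most `δ` at the same time) the member `X_t` has no atypical
intersection (`NoAtypical`): every irreducible closed subset of `X_t ∩ (Z × C)` has dimension at most
`dim (Z × C) + m - (n + k)`, for all `Z` and `C`, and the points of `X_t ∩ (Z × C)` have transcendence
degree at most `dim (Z × C) + m - (n + k)` over `K`. In particular `X_t` does not meet any special
subvariety of codimension larger than `m`, and no component of dimension `m` is contained in a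
proper special subvariety.

For `n = 0` this is a theorem about tori, on the conjecture of Zilber for families of subvarieties of
`G_m^k` and their members of bounded degree.

The number `2 δ + 1` is natural: for an algebraic unit `t` of degree `δ` and suitable points the
numbers `t - α` can be units at `2 δ` points `α`.

The starting files `MP_dd1803_nt.TropicalCriterion` and `MP_130685_nt.TropicalFewExceptions` are about
the parameters `t` in one fixed field, or about rational parameters; the sets of exceptions found
there are finite for each number field, but the number of fields of degree `δ` is infinite.
`MP_22337f_ag.AlmostAllAlgebraicParameters` is about one hundred percent (not all but finitely many)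
of the algebraic parameters, for families of curves in `Y(1)^n` of a special kind. Our
`MP_0704bf_ag.BoundedDegreeWeierstrassFamilies` is about variations of Hodge structure of tuples of
elliptic curves, without torus coordinates.

The proof: let `G` be the minimal polynomial of `t`. By the theorem on `S`-unit equations (starting
files `Y152.BD`) for all but finitely many `t` of degree at most `δ` the value of `G` at `α` has a
large prime divisor for all but at most `2 δ` of the `α ∈ D`. For such `α` there is a place of `ℂ`
over a large prime at which `t` is near to `α`, and it can be changed such that given algebraically
independent coordinates of a point of `X_t ∩ (Z × C)` are units. The values of the coordinates at this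
place, changed by linear programming over `ℚ`, give a point of `Trop α P` which is compatible with a
type of smaller dimension.
-/

set_option autoImplicit false

namespace Pool.Agent.Results.MP_a325a5_ag.BoundedDegreeMembers

open MvPolynomial Pool.Agent.R424.TG Pool.Agent.Y152.RP.FamM

/-- `t` is algebraic over the rational numbers, of degree at most `δ`. -/
def DegreeAtMost (δ : ℕ) (t : ℂ) : Prop :=
  ∃ F : Polynomial ℤ, F ≠ 0 ∧ F.natDegree ≤ δ ∧ Polynomial.aeval t F = 0

/-- **Zilber-Pink for all but finitely many of the members of bounded degree** of arbitrary
one-parameter families of subvarieties of `Y(1)^n × G_m^k`. -/
theorem result (K : Subfield ℂ) [Countable K] (κ : Type) [Finite κ] (n k N m δ : ℕ)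
    (P : κ → MvPolynomial ((Fin n ⊕ Fin k) ⊕ Fin N) (Polynomial K)) (D : Finset ℚ)
    (Γ : Finset ℂ) (hΓ : ∀ γ ∈ Γ, IsAlgebraic K γ)
    (hgen : Generic m (2 * δ + 1) P (D.image fun α : ℚ => (α : ℂ))) :
    {t : ℂ | DegreeAtMost δ t ∧
      ¬ NoAtypical (algebraMap (Algebra.adjoin ℤ (Γ : Set ℂ)) ℂ) K m (member t P)}.Finite :=
  Pool.Agent.T6.H20.MT.degT K κ n k N m δ P D Γ hΓ hgen

end Pool.Agent.Results.MP_a325a5_ag.BoundedDegreeMembers
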