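import Pool.Agent.T6.H20.MT.Many

/-!
# MP_a325a5_ag: Zilber-Pink for almost all members of families of subvarieties of the mixed Shimura
variety `ℰ^q × Y(1)^n × G_m^k` with several integral parameters

**The mixed Shimura variety and its special subvarieties** are as in our file
`UniversalCurveFamilies`: a point of `S = ℰ^q × Y(1)^n × G_m^k` is represented by an elliptic curve
`y² = x³ + A x + B` with `q` points `P_1, …, P_q`, numbers `x_1, …, x_n` and nonzero numbers
`u_1, …, u_k` (`Datum`), with `4 A³ + 27 B² = 1`, and `InSpecial z ρ` says that the point is in a special
subvariety of codimension at least `ρ` (definitions of the starting file `RandomSubvarieties`).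

**Families.** Let `F` be a finite system of polynomials in the coordinates
`A, B, x(P_1), …, x(P_q), x_1, …, x_n, u_1, …, u_k` and `N` auxiliary coordinates `y`, with the exponents
`supp j` and the coefficients `c j β`, which are polynomials in `1 + s` variables
`t = (t_0; t_1, …, t_s)` with integral coefficients. For `t ∈ ℤ^(1+s)` the member `X_t` (`OnX`) is the
set of the points of `S` with all `P_l` different from the origin for which there is a `y ∈ ℂ^N` such
that all polynomials of the system, with the coefficients evaluated at `t`, vanish. So `(X_t)` can be
any family of subvarieties of `S`, stable under the signs of the `P_l`, minus the zero sections, or of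
images of varieties, which depends algebraically on `1 + s` parameters.

**Tropicalizations at hyperplanes.** Let `h_1, …, h_M` be polynomials `a_0 t_0 + … + a_s t_s + a'` of degree
one with integral coefficients and `a_0 ≠ 0` (`IsLin`). Suppose that each coefficient is
`c = h_l ^ e_l(c) · g`, where `g` has no common factor of positive degree in `t_0` with `h_l` (`HasOrd`,
`CoprimeTo`; each `c ≠ 0` has such an order `e_l(c)`, if `a_0, …, a_s, a'` have no common divisor). The
tropicalization along `h_l` is the set of the points `w` of `(ℚ ∪ {∞})^(2+q+n+k+N)` such that for every
polynomial of the system the minimum of the numbers `e_l (coefficient) + β · w` is attained at two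
different exponents or is infinite (`TropAt`).

**The condition** (`GenericM`). Let `m` be an integer, the dimension of the `X_t`. The notions
*compatible with a type `(cls, d, L)`* (`CompatibleM`) and *`ρ`-independent* (`IndependentM`) are as in
`UniversalCurveFamilies`. The condition: for every type `(cls, d, L)` of special subvarieties of
`Y(1)^(n+1) × G_m^k` of codimension `n + 1 + k - (r + dim L)`, every `ρ ≥ 0` and every set
`T ⊆ {1, …, q}` such that the sum of this codimension, `ρ` and `|T|` is larger than `m` there are an `l`
and rational numbers `τ_i`, `i ∈ T`, such that every point `w` of the tropicalization along `h_l` which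
has `w(x(P_i)) = τ_i` for `i ∈ T` and is compatible with the type is `ρ`-independent.

**Theorem.** Suppose that the condition is satisfied and let `ε > 0`. Then for all `B ≥ 1` the member
`X_t` has no atypical intersection with special subvarieties, for all but at most
`C · B ^ (s + 1/2 + ε)` of the about `(2 B)^(1 + s)` integral parameters `t` with all `|t_i| ≤ B`: for
every `ρ` every irreducible constructible subset of the intersection of `X_t` with the union of all
special subvarieties of codimension at least `ρ` has dimension at most `m - ρ`, and the points of this
intersection have transcendence degree at most `m - ρ` over `ℚ` (`NoAtypicalM`). In particular `X_t`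
does not meet any special subvariety of codimension larger than `m`, and no component of `X_t` of
dimension `m` is contained in a proper special subvariety.

Our file `UniversalCurveFamilies` is about one-parameter families and degenerations at points; here the
base is the affine space of any dimension and the degenerations are along hyperplanes. For one
parameter the bound of `UniversalCurveFamilies` is the better one, and it admits algebraic coefficients
and rational and transcendental parameters; so neither theorem contains the other. The starting file
`MP_28d749_ag.ManyParameters` is about algebraic subgroups of the fibres of powers of elliptic schemes,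
with the same bound, and those of `MP_c95b3b_ag` and `MP_e573c6_ag` are about tori and `Y(1)^n`. Here
special subvarieties of `ℰ^q × Y(1)^n × G_m^k` of all types are excluded simultaneously.

The proof: the criterion `TropicalUniversalCurve` has to be satisfied with primes `p_l ≥ 5` which divide
`h_l(t)` exactly once and do not divide the `g(t)`. For fixed `t_1, …, t_s` outside a hypersurface `R = 0`
the numbers `h_l(t)` for which there is no such large prime are products of a number composed of small
primes and primes dividing `R(t_1, …, t_s)`, of which there are `O(B^ε)`, and of a number which no large
prime divides exactly once, of which there are `O(√B)`.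
-/

set_option autoImplicit false

namespace Pool.Agent.Results.MP_a325a5_ag.ManyParameters

open Pool.Agent.R424.MP Pool.Agent.T6.H20.MT
open Pool.Agent.Results.MP_a325a5_ag.RandomSubvarieties (Datum)

/-- **Zilber-Pink for almost all members of families with several integral parameters** of
subvarieties of `ℰ^q × Y(1)^n × G_m^k`, from the tropicalizations of the family along finitely many
hyperplanes of the space of parameters. -/
theorem result (κ : Type) [Finite κ] (s n q k N m M : ℕ)
    (supp : κ → Finset ((Coord n q k ⊕ Fin N) →₀ ℕ))
    (c : κ → ((Coord n q k ⊕ Fin N) →₀ ℕ) → Polynomial (MvPolynomial (Fin s) ℤ))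
    (h : Fin M → Polynomial (MvPolynomial (Fin s) ℤ)) (hlin : ∀ l, IsLin (h l))
    (e : Fin M → κ → ((Coord n q k ⊕ Fin N) →₀ ℕ) → ℕ)
    (he : ∀ l j, ∀ β ∈ supp j, HasOrd (h l) (c j β) (e l j β)) (hgen : GenericM m supp e)
    (ε : ℝ) (hε : 0 < ε) :
    ∃ C : ℝ, ∀ B : ℕ, 1 ≤ B →
      ({z : ℤ × (Fin s → ℤ) | |z.1| ≤ B ∧ (∀ i, |z.2 i| ≤ B) ∧
        ¬ NoAtypicalM ℚ m (OnX supp (fun j β => ((ev z.1 z.2 (c j β) : ℤ) : ℂ)) :
          Datum n q k → Prop)}.ncard : ℝ) ≤ C * (B : ℝ) ^ ((s : ℝ) + 1 / 2 + ε) :=
  manyM supp c h hlin e he hgen ε hε

end Pool.Agent.Results.MP_a325a5_ag.ManyParameters
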