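import Pool.Agent.T6.H20.MT.Res

/-!
# MP_a325a5_ag: a tropical local criterion for Zilber-Pink for arbitrary subvarieties of the mixed
Shimura variety `ℰ^q × Y(1)^n × G_m^k`

**The mixed Shimura variety.** `S = ℰ^q × Y(1)^n × G_m^k` has dimension `n + 1 + q + k`. Here `ℰ` is the
universal elliptic curve over `Y(1)`, and `ℰ^q` its `q`-th fibre power. A point of `S` is represented by
an elliptic curve `y² = x³ + A x + B` with `q` points `P_1, …, P_q`, numbers `x_1, …, x_n` (the
`j`-invariants of `n` more elliptic curves) and nonzero numbers `u_1, …, u_k` (`Datum`, a definition
of the starting file `RandomSubvarieties`). We use representatives with `4 A³ + 27 B² = 1`; every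
point has such a representative, and only finitely many.

**Special subvarieties** (`InSpecial z ρ`, a definition of the same file). The image in `Y(1)^(n+1)` of a
special subvariety of `S` is a special subvariety `Z` of dimension `r`: constant coordinates are
singular moduli, and the coordinates of a class are `j (g_i z_c)` with a free parameter `z_c` and fixed
integral matrices `g_i`. In the semiabelian scheme `ℰ^q × G_m^k` over `Z` it is given by a module of
relations between the points `P_l` up to torsion, with endomorphisms of the elliptic curve as
coefficients (also for curves with complex multiplication), and by a group of multiplicative relations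
between the `u_w` up to roots of unity. If `ρ₁` and `ρ₂` are the ranks of the module and of the group,
the codimension is `(n + 1 - r) + ρ₁ + ρ₂`, and `InSpecial z ρ` says that `z` is in a special subvariety
of codimension at least `ρ`.

**Subvarieties.** Let `∑_β c j β z^β`, `j ∈ κ`, be an arbitrary finite system of polynomials in the
coordinates `A, B, x(P_1), …, x(P_q), x_1, …, x_n, u_1, …, u_k` and `N` auxiliary coordinates `y`, with
complex coefficients and exponents `β` in finite sets `supp j`. Let `X` (`OnX`) be the set of the points
of `S` with all `P_l` different from the origin for which there is a `y ∈ ℂ^N` such that all polynomials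
of the system vanish (for a representative with `4 A³ + 27 B² = 1`). So `X` can be any subvariety of `S`
which is stable under the signs of the `P_l`, or the image of any variety, minus the zero sections.

**Places.** Let `p_l ≥ 5` be prime numbers (`l ∈ I`) such that the coefficients have orders at all
places above `p_l`: `v(c j β) = e l j β v(p_l)` for all valuations `v` of `ℂ` with `v(p_l) > 0`
(`OrdAt`), for instance integers of these orders at `p_l`. The tropicalization at `l` is the set of the
points `w` of `(ℚ ∪ {∞})^(2+q+n+k+N)` such that for every polynomial of the system the minimum of the
numbers `e l j β + β · w` is attained at two different exponents or is infinite (`TropAt`).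

**The condition** (`GenericM`). Let `m` be an integer, the dimension of `X`.

* The *type* of a special subvariety `Z × C` of `Y(1)^(n+1) × G_m^k` is `(cls, d, L)`: the partition
  `cls` of the nonconstant coordinates of `Y(1)^(n+1)` into `r` classes, the determinants `d_i`, and the
  linear space `L ⊆ ℚ^k` orthogonal to the characters which are constant on `C`. A point `w` is
  *compatible* with the type (`CompatibleM`) if the values of the constant coordinates are `≥ 0` (the
  value of the coordinate number `0`, the `j`-invariant `6912 A³`, is `3 w(A)`), two coordinates of
  one class have both values `≥ 0`, or both values `< 0` with `d_i d_j` times their product the square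
  of a rational number, and the torus coordinates of `w` are in `L`.
* A point `w` is `ρ`-*independent* (`IndependentM`) if there are a set `J` of more than `q - ρ` indices
  and a rational number `μ` with `2 μ ≤ w(A)`, `3 μ ≤ w(B)` and `w(x(P_j)) + 1/2 < μ` for `j ∈ J`, such
  that `w(x(P_i)) - w(x(P_j))` is not an integer for different `i, j ∈ J`.
* The condition: for every type of codimension `s = n + 1 + k - (r + dim L)`, every `ρ ≥ 0` and every
  set `T ⊆ {1, …, q}` with `s + ρ + |T| > m` there are an `l` and rational numbers `τ_i`, `i ∈ T`, such
  that every point `w` of the tropicalization at `l` which has `w(x(P_i)) = τ_i` for `i ∈ T` and is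
  compatible with the type is `ρ`-independent.

**Theorem.**
1. If the condition is satisfied then `X` has no atypical intersection with special subvarieties
   (`NoAtypicalM`): for every `ρ` every irreducible constructible subset of the intersection of `X`
   with the union of all special subvarieties of codimension at least `ρ` has dimension at most
   `m - ρ`, and the points of this intersection have transcendence degree at most `m - ρ` over `ℚ`. In
   particular `X` does not meet any special subvariety of codimension larger than `m`, and no
   component of `X` of dimension `m` is contained in a proper special subvariety.
2. For given finite sets `supp j` and given orders `e l j β` which satisfy the condition, and for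
   every `Q₀ > 0`, there is a residue class of integral coefficient vectors modulo some `Q > 0` prime to
   `Q₀` such that this is true for all systems with the coefficients in the residue class. (So these
   systems are a positive proportion of all systems of polynomials with integral coefficients and the
   given exponents, and of those in any residue class modulo `Q₀`.)

The starting file `TropicalLocalCriterion` of this problem is about `Y(1)^n × G_m^k`, and the file of the
same name of `MP_28d749_ag` is about algebraic subgroups of the fibres of powers of elliptic schemes;
here both kinds of conditions are combined, which is necessary for the special subvarieties of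
`ℰ^q × Y(1)^n × G_m^k`: the elliptic curve of the points `P_l` is one of the curves between which there
can be isogenies, and special subvarieties of large codimension can be of mixed type. The starting
files `RandomSubvarieties`, `RandomMixedShimura` treat pull-backs of a fixed variety under rational maps
whose coefficients are all independent parameters.

The proof: let `z` be a point of `X` in a special subvariety of codimension `ρ`, with algebraically
independent coordinates `z_i`, `i ∈ T'`. They can be exchanged against as many algebraically independent
numbers among the coordinates of the image in `Y(1)^(n+1) × G_m^k` and the abscissas `x(P_i)`, `i ∈ T`.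
There is a valuation of `ℂ` above `p_l`, all of whose values are rational multiples of `v(p_l)`, at which
the former are units (this reduces the dimension of the type) and the latter have the values `τ_i`. The
values of the coordinates give a point of the tropicalization, which is compatible with the reduced
type: by the modular equations the values `v, v' < 0` of the `j`-invariants of isogenous curves satisfy
`d d' v' = a² v`. After a scaling by `μ` the points `P_j`, `j ∈ J`, are in the kernel of the reduction,
deep enough for the logarithm, with values which are different modulo the values of the endomorphisms.
So there is no relation between them, but the module of the relations has rank at least `ρ₁ > q - |J|`.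
-/

set_option autoImplicit false

namespace Pool.Agent.Results.MP_a325a5_ag.TropicalUniversalCurve

open Pool.Agent.T6.H20.MT

/-- **The tropical local criterion** for Zilber-Pink in `ℰ^q × Y(1)^n × G_m^k`, and the systems of
polynomials with integral coefficients in a residue class. -/
theorem result (κ : Type) [Finite κ] (n q k N m : ℕ)
    (supp : κ → Finset ((Coord n q k ⊕ Fin N) →₀ ℕ)) :
    (∀ (I : Type) (c : κ → ((Coord n q k ⊕ Fin N) →₀ ℕ) → ℂ)
      (e : I → κ → ((Coord n q k ⊕ Fin N) →₀ ℕ) → ℕ), GenericM m supp e →
      ∀ p : I → ℕ, (∀ l, (p l).Prime) → (∀ l, 5 ≤ p l) →
      (∀ l j, ∀ β ∈ supp j, OrdAt (p l) (c j β) (e l j β)) → NoAtypicalM ℚ m (OnX supp c)) ∧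
    ∀ (M : ℕ) (e : Fin M → κ → ((Coord n q k ⊕ Fin N) →₀ ℕ) → ℕ), GenericM m supp e →
      ∀ Q₀ : ℕ, 0 < Q₀ → ∃ Q : ℕ, 0 < Q ∧ Q.Coprime Q₀ ∧
        ∃ c₀ : κ → ((Coord n q k ⊕ Fin N) →₀ ℕ) → ℤ,
        ∀ c : κ → ((Coord n q k ⊕ Fin N) →₀ ℕ) → ℤ,
          (∀ j, ∀ β ∈ supp j, (Q : ℤ) ∣ c j β - c₀ j β) →
          NoAtypicalM ℚ m (OnX supp fun j β => ((c j β : ℤ) : ℂ)) :=
  ⟨fun _ c e hgen p hp hp5 he => coreM m supp c e hgen p hp hp5 he,
    fun _ e hgen Q₀ hQ₀ => residueM supp e hgen Q₀ hQ₀⟩

end Pool.Agent.Results.MP_a325a5_ag.TropicalUniversalCurve
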