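import Pool.Agent.T6.H20.MT.Fam

/-!
# MP_a325a5_ag: Zilber-Pink for almost all members of arbitrary one-parameter families of subvarieties
of the mixed Shimura variety `ℰ^q × Y(1)^n × G_m^k`, from their tropicalizations

**The mixed Shimura variety.** `S = ℰ^q × Y(1)^n × G_m^k` has dimension `n + 1 + q + k`. Here `ℰ` is the
universal elliptic curve over `Y(1)`, and `ℰ^q` its `q`-th fibre power. A point of `S` is represented by
an elliptic curve `y² = x³ + A x + B` with `q` points `P_1, …, P_q`, numbers `x_1, …, x_n` (the
`j`-invariants of `n` more elliptic curves) and nonzero numbers `u_1, …, u_k` (`Datum`, a definition
of the starting file `RandomSubvarieties`). We use representatives with `4 A³ + 27 B² = 1`; every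
point has such a representative, and only finitely many.

**Special subvarieties** (`InSpecial z ρ`, a definition of the same file). The image in `Y(1)^(n+1)` of a
special subvariety of `S` is a special subvariety `Z` of dimension `r`: constant coordinates are
singular moduli, and the coordinates of a class are `j (g_i z_c)` with a free parameter `z_c` and fixed
integral matrices `g_i`. In the semiabelian scheme `ℰ^q × G_m^k` over `Z` it is given by a module of
relations between the points `P_l` up to torsion, with endomorphisms of the elliptic curve as
coefficients (also for curves with complex multiplication), and by a group of multiplicative relations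
between the `u_w` up to roots of unity. If `ρ₁` and `ρ₂` are the ranks of the module and of the group,
the codimension is `(n + 1 - r) + ρ₁ + ρ₂`, and `InSpecial z ρ` says that `z` is in a special subvariety
of codimension at least `ρ`.

**Families.** Let `F` be an arbitrary finite system of polynomials in the coordinates
`A, B, x(P_1), …, x(P_q), x_1, …, x_n, u_1, …, u_k` and `N` auxiliary coordinates, with coefficients in
`ℚ̄[t]`. For `t ∈ ℂ` the member `X_t` (`MemberM`) is the set of the points of `S` with all `P_l`
different from the origin for which there is a `y ∈ ℂ^N` such that all polynomials of the system, with
the coefficients evaluated at `t`, vanish (for a representative with `4 A³ + 27 B² = 1`). So `(X_t)` can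
be any one-parameter family of subvarieties of `S` which are stable under the signs of the `P_l`, minus
the zero sections, or of images of varieties.

**Tropicalization.** Let `D` be a finite set of rational numbers. For `α ∈ D` the tropicalization at `α`
is the set of the points `w` of `(ℚ ∪ {∞})^(2+q+n+k+N)` such that for every polynomial of the system the
minimum of the numbers `ord_α (coefficient) + β · w`, over the exponents `β` of its monomials, is
attained at two different exponents or is infinite (`TropAt`, `orders`).

**The condition** (`GenericM`). Let `m` be an integer, the dimension of the `X_t`.

* The *type* of a special subvariety `Z × C` of `Y(1)^(n+1) × G_m^k` is `(cls, d, L)`: the partition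
  `cls` of the nonconstant coordinates of `Y(1)^(n+1)` into `r` classes, the determinants `d_i`, and the
  linear space `L ⊆ ℚ^k` orthogonal to the characters which are constant on `C`. A point `w` is
  *compatible* with the type (`CompatibleM`) if the values of the constant coordinates are `≥ 0` (the
  value of the coordinate number `0`, the `j`-invariant `6912 A³`, is `3 w(A)`), two coordinates of
  one class have both values `≥ 0`, or both values `< 0` with `d_i d_j` times their product the square
  of a rational number, and the torus coordinates of `w` are in `L`.
* A point `w` is `ρ`-*independent* (`IndependentM`) if there are a set `J` of more than `q - ρ` indices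
  and a rational number `μ` with `2 μ ≤ w(A)`, `3 μ ≤ w(B)` and `w(x(P_j)) + 1/2 < μ` for `j ∈ J`, such
  that `w(x(P_i)) - w(x(P_j))` is not an integer for different `i, j ∈ J`.
* The condition: for every type of codimension `s = n + 1 + k - (r + dim L)`, every `ρ ≥ 0` and every
  set `T ⊆ {1, …, q}` with `s + ρ + |T| > m` there are an `α ∈ D` and rational numbers `τ_i`, `i ∈ T`,
  such that every point `w` of the tropicalization at `α` which has `w(x(P_i)) = τ_i` for `i ∈ T` and is
  compatible with the type is `ρ`-independent.

**Theorem.** Suppose that the condition is satisfied.
1. For all transcendental numbers `t` and
2. for all rational numbers `t = u / v` in lowest terms with few exceptions, namely for all `B ≥ 1` and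
   `v ≤ B` for all but at most `C √B` of the integers `u` with `|u| ≤ B` prime to `v`, with a constant
   `C` which depends only on the family (`v = 1`: all but `C √B` of the integers in `[-B, B]`),
the member `X_t` has no atypical intersection with special subvarieties (`NoAtypicalM`): for every `ρ`
every irreducible constructible subset of the intersection of `X_t` with the union of all special
subvarieties of codimension at least `ρ` has dimension at most `m - ρ`, and the points of this
intersection have transcendence degree at most `m - ρ` over `ℚ`, or in 1. over any countable field
containing `t`. In particular `X_t` does not meet any special subvariety of codimension larger than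
`m`, and no component of `X_t` of dimension `m` is contained in a proper special subvariety.

The starting files `MP_28d749_ag.TropicalFamilies` (algebraic subgroups of the fibres of powers of
elliptic schemes) and `MP_dd1803_nt.TropicalCriterion` (`Y(1)^n × G_m^k`) are the analogues for the two
kinds of special conditions which are combined here; the first has the same form of the exceptional
set. Our file `TropicalUniversalCurve` is about single subvarieties and residue classes of
coefficients, and is used in the proof.

The proof: let `t = u / v`. For all but `C √B` of the `u` there is for every `α ∈ D` a prime number `p`,
larger than a bound which depends only on the family, which divides the numerator of `t - α` exactly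
once. Then all the coefficients have the order `ord_α` of the polynomial at all places of `ℂ` above
`p`, and the local criterion can be applied. For transcendental `t` one chooses a place at which
`t - α` has the value of a large prime number `p`, given algebraically independent coordinates on
`Y(1)^(n+1) × G_m^k` are units, and given algebraically independent abscissas have the values `τ_i`.
-/

set_option autoImplicit false

namespace Pool.Agent.Results.MP_a325a5_ag.UniversalCurveFamilies

open MvPolynomial Pool.Agent.T6.H20.MT
open Pool.Agent.Results.MP_a325a5_ag.RandomSubvarieties (Datum)

/-- **Zilber-Pink for almost all members of one-parameter families** of subvarieties of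
`ℰ^q × Y(1)^n × G_m^k`, from the tropicalizations of the families at finitely many rational
parameters. -/
theorem result (κ : Type) [Finite κ] (n q k N m : ℕ)
    (F : κ → MvPolynomial (Coord n q k ⊕ Fin N) (Polynomial (algebraicClosure ℚ ℂ)))
    (D : Finset ℚ) (hgen : GenericM m (fun j => (F j).support) (orders F D)) :
    (∀ t : ℂ, Transcendental ℚ t → ∀ (K : Subfield ℂ) [Countable K], t ∈ K →
      NoAtypicalM K m (MemberM F t : Datum n q k → Prop)) ∧
    ∃ C : ℝ, ∀ B : ℕ, 1 ≤ B → ∀ v : ℕ, 1 ≤ v → v ≤ B →
      ({u : ℤ | |u| ≤ B ∧ IsCoprime u (v : ℤ) ∧ ¬ NoAtypicalM ℚ m (MemberM F ((u : ℂ) / v) :
        Datum n q k → Prop)}.ncard : ℝ) ≤ C * Real.sqrt B :=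
  ⟨fun t ht K _ htK => transM F D m hgen t ht K htK, ratM F D m hgen⟩

end Pool.Agent.Results.MP_a325a5_ag.UniversalCurveFamilies
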